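import Pool.Agent.Helper75.CYC.DD

/-!
# Case I: the T1 relation at `|S| = r - 1` kills the odd coefficients, exactly

`f` of degree `2r` over any ring of characteristic two, constant coefficient a unit.  Over `R[T]`
with `Γ = X (1 + T X²)` the T1 determinant is `∑ T^(r-1-l) f.coeff (2l+1)` up to a regular factor.
-/

set_option autoImplicit false

namespace Pool.Agent.Helper75.CYC

open Finset Polynomial Pool.Agent.Helper10.CYC

/-- The columns: `X (1 + T X²) X^(2i)`, `i < ρ`, and `X^(2i)`, `i ≤ ρ + 1`. -/
noncomputable def cI {R : Type} [CommRing R] (ρ : ℕ) : Fin (2 * (ρ + 1)) → R[X][X] :=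
  fun j => if (j : ℕ) < ρ then (X * (1 + C X * X ^ 2)) * X ^ (2 * (j : ℕ))
    else X ^ (2 * ((j : ℕ) - ρ))

/-- The exponents at `T = 0`, with the last column replaced by `X^(2ρ+1)`. -/
def eI (ρ : ℕ) (j : ℕ) : ℕ :=
  if j < ρ then 2 * j + 1 else if j < 2 * ρ + 1 then 2 * (j - ρ) else 2 * ρ + 1

lemma eI_lt (ρ j : ℕ) (_ : j < 2 * (ρ + 1)) : eI ρ j < 2 * (ρ + 1) := by
  unfold eI; split_ifs <;> omega

lemma eI_inj (ρ i j : ℕ) (hi : i < 2 * (ρ + 1)) (hj : j < 2 * (ρ + 1)) (h : eI ρ i = eI ρ j) :
    i = j := by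
  unfold eI at h; split_ifs at h <;> omega

theorem odd_coeff_zero {R : Type} [CommRing R] [CharP R 2] (r : ℕ) (hr : 1 ≤ r) (f : R[X])
    (hf : f.Monic) (hd : f.natDegree = 2 * r) (h0 : IsUnit (f.coeff 0))
    (h : ∀ G : R[X][X], dd (f.map C) (col1 (2 * r) (r - 1) G) = 0) :
    ∀ i, Odd i → f.coeff i = 0 := by
  obtain ⟨ρ, rfl⟩ : ∃ ρ, r = ρ + 1 := ⟨r - 1, by omega⟩
  have : CharP R[X] 2 := inferInstance
  have : Nontrivial R := CharP.nontrivial_of_char_ne_one (v := 2) (by norm_num)
  set F : R[X][X] := f.map C with hF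
  have hFm : F.Monic := hf.map C
  have hFd : F.natDegree = 2 * (ρ + 1) := by rw [hF, hf.natDegree_map, hd]
  have hF0 : IsUnit (F.coeff 0) := by
    rw [hF, coeff_map]; exact h0.map C
  -- remove the power of X
  have h1 : dd F (cI ρ : Fin (2 * (ρ + 1)) → R[X][X]) = 0 := by
    refine dd_X_pow_mul_eq_zero F hFm hFd hF0 (2 * (ρ + 2)) _ ?_
    rw [← h (X * (1 + C X * X ^ 2))]
    congr 1
    funext j
    rw [cI, col1]
    have e1 : 2 * (ρ + 1) - (ρ + 1 - 1) = ρ + 2 := by omega
    have e2 : ρ + 1 - 1 = ρ := by omega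
    rw [e1, e2]
    split_ifs
    · ring
    · ring
  set g : Fin (2 * (ρ + 1)) → R[X][X] := cI ρ with hg
  set last : Fin (2 * (ρ + 1)) := ⟨2 * ρ + 1, by omega⟩ with hlast
  set L := ddL F g last with hL
  have hglast : g last = X ^ (2 * (ρ + 1)) := by
    rw [hg, cI, if_neg (by simp only [hlast]; omega)]
    congr 1
    simp only [hlast]; omega
  have hLlast : L (X ^ (2 * (ρ + 1))) = 0 := by
    rw [hL, ddL_apply, ← hglast, Function.update_eq_self, h1]
  have hLeven : ∀ l, l < ρ + 1 → L (X ^ (2 * l)) = 0 := by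
    intro l hl
    have h2 : g ⟨ρ + l, by omega⟩ = X ^ (2 * l) := by
      rw [hg, cI, if_neg (by simp)]
      congr 1
      simp
    rw [← h2, hL]
    refine ddL_rep F g _ _ ?_
    intro h3
    have := congrArg Fin.val h3
    simp only [hlast] at this
    omega
  have hLodd1 : ∀ i, i < ρ → L (X ^ (2 * i + 1)) = X * L (X ^ (2 * (i + 1) + 1)) := by
    intro i hi
    have h2 : g ⟨i, by omega⟩ = X ^ (2 * i + 1) + C X * X ^ (2 * (i + 1) + 1) := by
      rw [hg, cI, if_pos (by simpa using hi)]
      ring
    have h3 : L (g ⟨i, by omega⟩) = 0 := by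
      rw [hL]
      refine ddL_rep F g _ _ ?_
      intro h3
      have := congrArg Fin.val h3
      simp only [hlast] at this
      omega
    rw [h2, map_add, ← Polynomial.smul_eq_C_mul, map_smul, smul_eq_mul] at h3
    exact CharTwo.add_eq_zero.1 h3
  have hLodd : ∀ d l, l + d = ρ → L (X ^ (2 * l + 1)) = X ^ d * L (X ^ (2 * ρ + 1)) := by
    intro d
    induction d with
    | zero => intro l hl; rw [← hl]; simp
    | succ d ih =>
      intro l hl
      rw [hLodd1 l (by omega), ih (l + 1) (by omega), pow_succ]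
      ring
  set u := L (X ^ (2 * ρ + 1)) with hu
  -- the constant term of `u`
  have hu0 : u.coeff 0 = 1 := by
    have h2 : (constantCoeff : R[X] →+* R) u = 1 := by
      rw [hu, hL, ddL_apply, Helper91.CYC.st_a1 R[X] R constantCoeff _ F hFm]
      have e1 : F.map (constantCoeff : R[X] →+* R) = f := by
        rw [hF, Polynomial.map_map]
        have : (constantCoeff : R[X] →+* R).comp C = RingHom.id R := by
          ext x; simp
        rw [this, Polynomial.map_id]
      rw [e1]
      let σf : Fin (2 * (ρ + 1)) → Fin (2 * (ρ + 1)) := fun j => ⟨eI ρ j, eI_lt ρ j j.2⟩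
      have hσ : Function.Bijective σf := by
        rw [← Finite.injective_iff_bijective]
        intro i j hij
        exact Fin.ext (eI_inj ρ i j i.2 j.2 (congrArg Fin.val hij))
      let σ : Equiv.Perm (Fin (2 * (ρ + 1))) := Equiv.ofBijective σf hσ
      rw [← dd_basis f hf hd, ← dd_perm2 f (fun j => (X : R[X]) ^ (j : ℕ)) σ]
      congr 1
      funext j
      have e2 : ((σ j : Fin (2 * (ρ + 1))) : ℕ) = eI ρ j := rfl
      rw [e2]
      by_cases hj : j = last
      · rw [hj, Function.update_self, Polynomial.map_pow, Polynomial.map_X]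
        congr 1
        unfold eI
        simp only [hlast]
        rw [if_neg (by omega), if_neg (by omega)]
      · rw [Function.update_of_ne hj, hg, cI, eI]
        have hj' : (j : ℕ) ≠ 2 * ρ + 1 := fun h4 => hj (Fin.ext h4)
        have hj2 := j.2
        by_cases hj3 : (j : ℕ) < ρ
        · rw [if_pos hj3, if_pos hj3]
          simp only [Polynomial.map_mul, Polynomial.map_add, Polynomial.map_one,
            Polynomial.map_pow, Polynomial.map_X, Polynomial.map_C]
          simp
          ring
        · rw [if_neg hj3, if_neg hj3, if_pos (by omega), Polynomial.map_pow, Polynomial.map_X]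
    simpa using h2
  -- expand `L F = 0`
  have hLF : L F = 0 := by
    have := ddL_f_mul F hFm g last 1
    rwa [mul_one] at this
  have hsum : u * ∑ l ∈ range (ρ + 1), C (f.coeff (2 * l + 1)) * X ^ (ρ - l) = 0 := by
    have h2 : F = ∑ a ∈ range (2 * (ρ + 1) + 1), C (C (f.coeff a)) * X ^ a := by
      conv_lhs => rw [Polynomial.as_sum_range_C_mul_X_pow F, hFd]
      refine Finset.sum_congr rfl (fun a _ => ?_)
      rw [hF, coeff_map]
    have h3 : L F = ∑ a ∈ range (2 * (ρ + 1) + 1), C (f.coeff a) * L (X ^ a) := by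
      conv_lhs => rw [h2]
      rw [map_sum]
      refine Finset.sum_congr rfl (fun a _ => ?_)
      rw [← Polynomial.smul_eq_C_mul, map_smul, smul_eq_mul]
    rw [hLF, Finset.sum_range_succ, hLlast, mul_zero, add_zero] at h3
    have h4 : ∀ (n : ℕ) (G : ℕ → R[X]), ∑ a ∈ range (2 * n), G a
        = (∑ l ∈ range n, G (2 * l)) + ∑ l ∈ range n, G (2 * l + 1) := by
      intro n G
      induction n with
      | zero => simp
      | succ n ih =>
        have : 2 * (n + 1) = 2 * n + 1 + 1 := by ring
        rw [this, Finset.sum_range_succ, Finset.sum_range_succ, ih, Finset.sum_range_succ,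
          Finset.sum_range_succ]
        ring
    rw [h4] at h3
    have h5 : ∑ l ∈ range (ρ + 1), C (f.coeff (2 * l)) * L (X ^ (2 * l)) = 0 :=
      Finset.sum_eq_zero (fun l hl => by rw [hLeven l (Finset.mem_range.1 hl), mul_zero])
    rw [h5, zero_add] at h3
    rw [h3, Finset.mul_sum]
    refine Finset.sum_congr rfl (fun l hl => ?_)
    rw [hLodd (ρ - l) l (by have := Finset.mem_range.1 hl; omega)]
    ring
  have hreg : ∀ P : R[X], u * P = 0 → P = 0 := by
    intro P hP
    by_contra hne
    -- lowest coefficient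
    have hex : ∃ n, P.coeff n ≠ 0 := by
      by_contra hcon
      push Not at hcon
      exact hne (Polynomial.ext (fun n => by rw [hcon n, coeff_zero]))
    classical
    let n := Nat.find hex
    have hn : P.coeff n ≠ 0 := Nat.find_spec hex
    have hn' : ∀ m, m < n → P.coeff m = 0 := fun m hm => by
      by_contra h6
      exact Nat.find_min hex hm h6
    have h6 := congrArg (fun Q : R[X] => Q.coeff n) hP
    simp only [coeff_mul, coeff_zero] at h6
    rw [Finset.sum_eq_single (0, n)] at h6
    · rw [hu0, one_mul] at h6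
      exact hn h6
    · rintro ⟨a, b⟩ hab hne'
      have hab' := HasAntidiagonal.mem_antidiagonal.1 hab
      simp only at hab'
      have : b < n := by
        rcases Nat.lt_or_ge b n with h7 | h7
        · exact h7
        · exfalso
          apply hne'
          have : b = n := by omega
          have : a = 0 := by omega
          simp [*]
      simp only
      rw [hn' b this, mul_zero]
    · intro h7
      exact absurd (HasAntidiagonal.mem_antidiagonal.2 (by simp)) h7
  have hfin := hreg _ hsum
  intro i hi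
  obtain ⟨l, rfl⟩ := hi
  by_cases hl : l < ρ + 1
  · have h6 := congrArg (fun Q : R[X] => Q.coeff (ρ - l)) hfin
    simp only [finsetSum_coeff, coeff_C_mul, coeff_X_pow, coeff_zero] at h6
    rw [Finset.sum_eq_single l] at h6
    · simpa using h6
    · intro b hb hbl
      have := Finset.mem_range.1 hb
      rw [if_neg (by omega), mul_zero]
    · intro h7
      exact absurd (Finset.mem_range.2 hl) h7
  · exact coeff_eq_zero_of_natDegree_lt (by omega)

end Pool.Agent.Helper75.CYC
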