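import Pool.Agent.Helper10.CYC.OddDefs

/-!
# Factorization `∏ (X - y i) = D ^ 2 * O` with `O` squarefree (`ST_G`)
-/

set_option autoImplicit false

namespace Pool.Agent.Helper75.CYC

open Finset Polynomial Pool.Agent.Helper10.CYC

lemma fac_step {K : Type} [Field K] (v : K) (hv : v ≠ 0) (D O : K[X]) (hD : D.Monic)
    (hO : O.Monic) (hD0 : D.eval 0 ≠ 0) (hO0 : O.eval 0 ≠ 0) (hsq : Squarefree O) :
    ∃ D' O' : K[X], D'.Monic ∧ O'.Monic ∧ D'.eval 0 ≠ 0 ∧ O'.eval 0 ≠ 0 ∧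
      Squarefree O' ∧ (X - C v) * (D ^ 2 * O) = D' ^ 2 * O' := by
  have hl0 : (X - C v : K[X]).eval 0 ≠ 0 := by simpa using hv
  have hlm : (X - C v : K[X]).Monic := monic_X_sub_C v
  have hirr : Irreducible (X - C v : K[X]) := irreducible_X_sub_C v
  by_cases hdvd : (X - C v) ∣ O
  · obtain ⟨O', rfl⟩ := hdvd
    have hO'm : O'.Monic := hlm.of_mul_monic_left hO
    refine ⟨D * (X - C v), O', hD.mul hlm, hO'm, ?_, ?_, ?_, ?_⟩
    · rw [eval_mul]; exact mul_ne_zero hD0 hl0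
    · rw [eval_mul] at hO0; exact right_ne_zero_of_mul hO0
    · exact hsq.of_mul_right
    · ring
  · have hcop : IsCoprime (X - C v) O := (hirr.coprime_iff_not_dvd).2 hdvd
    refine ⟨D, (X - C v) * O, hD, hlm.mul hO, hD0, ?_, ?_, ?_⟩
    · rw [eval_mul]; exact mul_ne_zero hl0 hO0
    · exact (squarefree_mul_iff.2 ⟨hcop.isRelPrime, hirr.squarefree, hsq⟩)
    · ring

lemma fac_prod {K : Type} [Field K] {ι : Type} (s : Finset ι) (y : ι → K)
    (hy : ∀ i, y i ≠ 0) :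
    ∃ D O : K[X], D.Monic ∧ O.Monic ∧ D.eval 0 ≠ 0 ∧ O.eval 0 ≠ 0 ∧
      Squarefree O ∧ ∏ i ∈ s, (X - C (y i)) = D ^ 2 * O := by
  classical
  induction s using Finset.induction_on with
  | empty =>
    refine ⟨1, 1, monic_one, monic_one, by simp, by simp, squarefree_one, by simp⟩
  | insert a s ha ih =>
    obtain ⟨D, O, hD, hO, hD0, hO0, hsq, he⟩ := ih
    rw [prod_insert ha, he]
    exact fac_step (y a) (hy a) D O hD hO hD0 hO0 hsq

theorem st_g : ST_G := fun _ _ _ _ y hy => fac_prod univ y hy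


end Pool.Agent.Helper75.CYC
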