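import Pool.Agent.Helper73.SNC.Roots

/-!
# One of the two sets is a coset (`S2`)

If `A` is a coset of the subgroup killed by `k = |A|` and `B` is not, then `(A, B)` has a
transversal, provided all smaller pairs are good: cut the cyclic subgroup into consecutive
intervals, one for each coset met by `B`.
-/

set_option autoImplicit false
set_option linter.unusedSectionVars false

namespace Pool.Agent.Helper75.CYC

open Finset Pool.Agent.Helper7.SN Pool.Agent.Helper73.SNC

variable {n : ℕ} [NeZero n] {k : ℕ}

/-- The interval `[p,q)` of the cyclic subgroup of order `k`. -/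
def iv (n k p q : ℕ) : Finset (ZMod n) :=
  (Finset.Ico p q).image (fun j : ℕ => ((j * (n / k) : ℕ) : ZMod n))

lemma iv_inj (hkn : k ∣ n) (hk : 0 < k) {i j : ℕ} (hi : i < k) (hj : j < k)
    (h : ((i * (n / k) : ℕ) : ZMod n) = ((j * (n / k) : ℕ) : ZMod n)) : i = j := by
  have hn : 0 < n := Nat.pos_of_ne_zero (NeZero.ne n)
  have hd : 0 < n / k := Nat.div_pos (Nat.le_of_dvd hn hkn) hk
  have hlt : ∀ i, i < k → i * (n / k) < n := by
    intro i hi
    calc i * (n / k) < k * (n / k) := Nat.mul_lt_mul_of_pos_right hi hd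
      _ = n := Nat.mul_div_cancel' hkn
  have h1 := congrArg ZMod.val h
  rw [ZMod.val_natCast, ZMod.val_natCast, Nat.mod_eq_of_lt (hlt i hi),
    Nat.mod_eq_of_lt (hlt j hj)] at h1
  exact Nat.eq_of_mul_eq_mul_right hd h1

lemma card_iv (hkn : k ∣ n) (hk : 0 < k) {p q : ℕ} (hq : q ≤ k) : (iv n k p q).card = q - p := by
  unfold iv
  rw [Finset.card_image_of_injOn, Nat.card_Ico]
  intro i hi j hj hij
  rw [Finset.coe_Ico, Set.mem_Ico] at hi hj
  exact iv_inj hkn hk (by omega) (by omega) hij

lemma mem_iv {p q : ℕ} {x : ZMod n} :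
    x ∈ iv n k p q ↔ ∃ j, p ≤ j ∧ j < q ∧ ((j * (n / k) : ℕ) : ZMod n) = x := by
  unfold iv
  simp only [Finset.mem_image, Finset.mem_Ico]
  constructor
  · rintro ⟨j, ⟨h1, h2⟩, h3⟩
    exact ⟨j, h1, h2, h3⟩
  · rintro ⟨j, h1, h2, h3⟩
    exact ⟨j, ⟨h1, h2⟩, h3⟩

lemma nsmul_iv (hkn : k ∣ n) {p q : ℕ} {x : ZMod n} (hx : x ∈ iv n k p q) : k • x = 0 := by
  obtain ⟨j, _, _, rfl⟩ := mem_iv.1 hx
  rw [nsmul_eq_mul, ← Nat.cast_mul]
  have : k * (j * (n / k)) = j * n := by
    rw [← mul_assoc, mul_comm k j, mul_assoc, Nat.mul_div_cancel' hkn]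
  rw [this, Nat.cast_mul, ZMod.natCast_self, mul_zero]

lemma iv_union {p q r : ℕ} (h1 : p ≤ q) (h2 : q ≤ r) :
    iv n k p r = iv n k p q ∪ iv n k q r := by
  unfold iv
  rw [← Finset.image_union, Finset.Ico_union_Ico_eq_Ico h1 h2]

lemma iv_disj (hkn : k ∣ n) (hk : 0 < k) {p q r : ℕ} (hr : r ≤ k) (hqr : q ≤ r) :
    Disjoint (iv n k p q) (iv n k q r) := by
  rw [Finset.disjoint_left]
  intro x h1 h2
  obtain ⟨i, _, hi, rfl⟩ := mem_iv.1 h1
  obtain ⟨j, hj, hj', he⟩ := mem_iv.1 h2
  have := iv_inj hkn hk (by omega) (by omega) he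
  omega

/-- An interval of length `< k` is not a coset of a subgroup of even order. -/
lemma iv_not_cos (hkn : k ∣ n) (hk : 0 < k) {p q : ℕ} (hq : q ≤ k) (hpq : q - p < k)
    (B : Finset (ZMod n)) : ¬ CosPair (iv n k p q) B := by
  classical
  rintro ⟨H, hev, a, b, ha, _⟩
  have hcard : Nat.card H = q - p := by
    rw [← card_iv (n := n) hkn hk hq (p := p)]
    have h0 : Nat.card (iv n k p q) = (iv n k p q).card := by
      rw [Nat.card_eq_fintype_card, Fintype.card_coe]
    rw [← h0]
    refine Nat.card_congr ⟨fun x => ⟨x.1 + a, ?_⟩, fun y => ⟨y.1 - a, ?_⟩, ?_, ?_⟩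
    · exact (ha _).2 (by rw [add_sub_cancel_right]; exact x.2)
    · exact (ha _).1 y.2
    · intro x; simp
    · intro y; simp
  have hpos : 0 < Nat.card H := Nat.card_pos
  obtain ⟨c, hc⟩ := hev
  -- two consecutive members
  have h1 : ((p * (n / k) : ℕ) : ZMod n) ∈ iv n k p q := mem_iv.2 ⟨p, le_rfl, by omega, rfl⟩
  have h2 : (((p + 1) * (n / k) : ℕ) : ZMod n) ∈ iv n k p q :=
    mem_iv.2 ⟨p + 1, by omega, by omega, rfl⟩
  have hg : ((n / k : ℕ) : ZMod n) ∈ H := by
    have h3 := H.sub_mem ((ha _).1 h2) ((ha _).1 h1)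
    have h4 : (((p + 1) * (n / k) : ℕ) : ZMod n) - a - (((p * (n / k) : ℕ) : ZMod n) - a)
        = ((n / k : ℕ) : ZMod n) := by
      rw [add_mul, one_mul, Nat.cast_add]
      abel
    rwa [h4] at h3
  have h5 : ∀ x ∈ iv n k 0 k, x ∈ H := by
    intro x hx
    obtain ⟨j, _, _, rfl⟩ := mem_iv.1 hx
    have := H.nsmul_mem hg j
    rwa [nsmul_eq_mul, ← Nat.cast_mul] at this
  have h6 : (iv n k 0 k).card ≤ Nat.card H := by
    have h7 : Nat.card (iv n k 0 k) = (iv n k 0 k).card := by
      rw [Nat.card_eq_fintype_card, Fintype.card_coe]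
    rw [← h7]
    exact Nat.card_le_card_of_injective (fun x : iv n k 0 k => (⟨x.1, h5 x.1 x.2⟩ : H))
      (fun x y hxy => Subtype.ext (congrArg (fun z : H => (z : ZMod n)) hxy))
  rw [card_iv (n := n) hkn hk le_rfl, hcard] at h6
  omega

/-- The classes of `B` with `k • x ∈ T`. -/
lemma tr_classes (hkn : k ∣ n) (hk : 0 < k)
    (hind : ∀ A' B' : Finset (ZMod n), A'.card = B'.card → A'.card < k → Tr A' B' ∨ CosPair A' B')
    (B : Finset (ZMod n)) (hB : ∀ c, (B.filter (fun x => k • x = c)).card < k)
    (T : Finset (ZMod n)) :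
    ∀ p, p + (B.filter (fun x => k • x ∈ T)).card ≤ k →
      TrS (iv n k p (p + (B.filter (fun x => k • x ∈ T)).card))
        (B.filter (fun x => k • x ∈ T)) {s | k • s ∈ T} := by
  classical
  induction T using Finset.induction_on with
  | empty =>
    intro p _
    have h1 : B.filter (fun x => k • x ∈ (∅ : Finset (ZMod n))) = ∅ := by
      ext x; simp
    rw [h1, Finset.card_empty, add_zero]
    have h2 : iv n k p p = ∅ := by unfold iv; simp
    rw [h2]
    exact trS_empty _
  | insert c T hc ih =>
    intro p hp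
    have hsplit : B.filter (fun x => k • x ∈ insert c T)
        = B.filter (fun x => k • x = c) ∪ B.filter (fun x => k • x ∈ T) := by
      ext x
      simp only [Finset.mem_filter, Finset.mem_insert, Finset.mem_union]
      tauto
    have hdis : Disjoint (B.filter (fun x => k • x = c)) (B.filter (fun x => k • x ∈ T)) := by
      rw [Finset.disjoint_left]
      intro x h1 h2
      rw [Finset.mem_filter] at h1 h2
      exact hc (h1.2 ▸ h2.2)
    have hcard : (B.filter (fun x => k • x ∈ insert c T)).card
        = (B.filter (fun x => k • x = c)).card + (B.filter (fun x => k • x ∈ T)).card := by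
      rw [hsplit, Finset.card_union_of_disjoint hdis]
    set N := (B.filter (fun x => k • x = c)).card with hN
    set M := (B.filter (fun x => k • x ∈ T)).card with hM
    rw [hcard] at hp ⊢
    have e1 : TrS (iv n k p (p + N)) (B.filter (fun x => k • x = c)) {s | k • s = c} := by
      have h1 : (iv n k p (p + N)).card = (B.filter (fun x => k • x = c)).card := by
        rw [card_iv hkn hk (by omega), ← hN]; omega
      rcases hind _ _ h1 (by rw [h1]; exact hB c) with h | h
      · refine h.trS ?_
        intro a ha b hb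
        rw [Finset.mem_filter] at hb
        show k • (a + b) = c
        rw [smul_add, nsmul_iv hkn ha, zero_add, hb.2]
      · exact absurd h (iv_not_cos hkn hk (by omega) (by
          have := hB c
          omega) _)
    have e2 := ih (p + N) (by omega)
    have e3 := e1.union e2 (iv_disj hkn hk (by omega) (by omega)) hdis (by
      rw [Set.disjoint_left]
      intro s h1 h2
      exact hc ((h1 : k • s = c) ▸ h2))
    rw [hsplit, show p + (N + M) = p + N + M by ring,
      iv_union (n := n) (k := k) (show p ≤ p + N by omega) (show p + N ≤ p + N + M by omega)]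
    refine e3.mono ?_
    rintro s (h | h)
    · exact Finset.mem_insert.2 (Or.inl h)
    · exact Finset.mem_insert.2 (Or.inr h)

/-- **S2.** One of the two sets is a coset, the other is not. -/
theorem tr_of_cos (hk : 0 < k)
    (hind : ∀ A' B' : Finset (ZMod n), A'.card = B'.card → A'.card < k → Tr A' B' ∨ CosPair A' B')
    {A B : Finset (ZMod n)} (hA : A.card = k) (hB : B.card = k) (hAc : IsCos k A)
    (hBn : ¬ IsCos k B) : Tr A B := by
  classical
  have hcard := hAc.card_ker
  have hkn : k ∣ n := by
    have h1 := AddSubgroup.card_addSubgroup_dvd_card (ker n k)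
    rwa [hcard, hA, Nat.card_zmod] at h1
  obtain ⟨a, ha⟩ := hAc
  have hB' : ∀ c, (B.filter (fun x => k • x = c)).card < k := by
    intro c
    refine lt_of_le_of_ne ((Finset.card_filter_le _ _).trans_eq hB) ?_
    intro h
    have h1 : B.filter (fun x => k • x = c) = B :=
      Finset.eq_of_subset_of_card_le (Finset.filter_subset _ _) (by rw [h, hB])
    apply hBn
    refine isCos_of_nsmul hk B hB ?_
    intro x hx y hy
    rw [← h1, Finset.mem_filter] at hx hy
    rw [smul_sub, hx.2, hy.2, sub_self]
  have h1 := tr_classes hkn hk hind B hB' univ 0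
  have h2 : B.filter (fun x => k • x ∈ (univ : Finset (ZMod n))) = B := by
    ext x; simp
  rw [h2, hB, zero_add] at h1
  have h3 := (h1 le_rfl).tr
  have h4 : sh (iv n k 0 k) a = A := by
    have h5 : sh (iv n k 0 k) a ⊆ A := by
      intro x hx
      rw [mem_sh] at hx
      rw [ha]
      exact nsmul_iv hkn hx
    refine Finset.eq_of_subset_of_card_le h5 ?_
    rw [card_sh, card_iv hkn hk le_rfl, hA]
    omega
  have h6 := h3.sh a 0
  rwa [h4, sh_zero] at h6

/-- The final skeleton: the core is the case of an even size and of two non-cosets. -/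
theorem good_of_core
    (hodd : ∀ A B : Finset (ZMod n), A.card = B.card → Odd A.card → Tr A B)
    (hcore : ∀ A B : Finset (ZMod n), A.card = B.card → Even A.card → 0 < A.card →
      ¬ IsCos A.card A → ¬ IsCos A.card B →
      (∀ A' B' : Finset (ZMod n), A'.card = B'.card → A'.card < A.card →
        Tr A' B' ∨ CosPair A' B') → Tr A B ∨ CosPair A B)
    (A B : Finset (ZMod n)) (hAB : A.card = B.card) : Tr A B ∨ CosPair A B := by
  classical
  induction hk : A.card using Nat.strong_induction_on generalizing A B with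
  | _ k ih =>
    have hind : ∀ A' B' : Finset (ZMod n), A'.card = B'.card → A'.card < A.card →
        Tr A' B' ∨ CosPair A' B' := by
      intro A' B' h1 h2
      exact ih A'.card (by omega) A' B' h1 rfl
    rcases Nat.even_or_odd A.card with he | ho
    · rcases Nat.eq_zero_or_pos A.card with h0 | hpos
      · left
        have h1 : A = ∅ := Finset.card_eq_zero.1 h0
        have h2 : B = ∅ := Finset.card_eq_zero.1 (by omega)
        rw [h1, h2]
        exact tr_empty
      · by_cases hA : IsCos A.card A <;> by_cases hB : IsCos A.card B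
        · exact (cos_or_tr rfl hA hB).symm
        · exact Or.inl (tr_of_cos hpos hind rfl hAB.symm hA hB)
        · refine Or.inl (Tr.symm (tr_of_cos hpos ?_ hAB.symm rfl hB hA))
          exact hind
        · exact hcore A B hAB he hpos hA hB hind
    · exact Or.inl (hodd A B hAB ho)

end Pool.Agent.Helper75.CYC
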