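import Pool.Agent.Helper10.CYC.Blocks
import Pool.Agent.Helper91.CYC.PieceA

/-!
# Basic algebra of `dd`: linearity in a column, multiplicativity, units
-/

set_option autoImplicit false

namespace Pool.Agent.Helper75.CYC

open Finset Polynomial Pool.Agent.Helper10.CYC

section

variable {R : Type*} [CommRing R] {k : ℕ}

/-- The matrix behind `dd` after changing one column. -/
lemma dd_update (f : R[X]) (g : Fin k → R[X]) (j : Fin k) (p : R[X]) :
    dd f (Function.update g j p)
      = ((Matrix.of fun a j : Fin k => (g j %ₘ f).coeff (a : ℕ)).updateCol j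
          (fun a => (p %ₘ f).coeff (a : ℕ))).det := by
  rw [dd]
  congr 1
  ext a l
  rw [Matrix.updateCol_apply]
  by_cases h : l = j
  · subst h; simp
  · rw [if_neg h]; simp [Function.update_of_ne h]

lemma dd_update_add (f : R[X]) (g : Fin k → R[X]) (j : Fin k) (p q : R[X]) :
    dd f (Function.update g j (p + q))
      = dd f (Function.update g j p) + dd f (Function.update g j q) := by
  rw [dd_update, dd_update, dd_update, ← Matrix.det_updateCol_add]
  congr 2
  ext a
  simp [Polynomial.add_modByMonic]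

lemma dd_update_smul (f : R[X]) (g : Fin k → R[X]) (j : Fin k) (c : R) (p : R[X]) :
    dd f (Function.update g j (C c * p)) = c * dd f (Function.update g j p) := by
  rw [dd_update, dd_update, ← Matrix.det_updateCol_smul]
  congr 2
  ext a
  simp [← Polynomial.smul_eq_C_mul, Polynomial.smul_modByMonic]

/-- `dd` as a linear function of one column. -/
noncomputable def ddL (f : R[X]) (g : Fin k → R[X]) (j : Fin k) : R[X] →ₗ[R] R where
  toFun p := dd f (Function.update g j p)
  map_add' := dd_update_add f g j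
  map_smul' c p := by
    rw [Polynomial.smul_eq_C_mul, dd_update_smul]; rfl

lemma ddL_apply (f : R[X]) (g : Fin k → R[X]) (j : Fin k) (p : R[X]) :
    ddL f g j p = dd f (Function.update g j p) := rfl

/-- Zero if `p` is another column. -/
lemma ddL_rep (f : R[X]) (g : Fin k → R[X]) (i j : Fin k) (hij : i ≠ j) :
    ddL f g j (g i) = 0 := by
  rw [ddL_apply]
  refine dd_rep f _ i j hij ?_
  rw [Function.update_self, Function.update_of_ne hij]

/-- Multiples of `f` do not count. -/
lemma ddL_f_mul (f : R[X]) (hf : f.Monic) (g : Fin k → R[X]) (j : Fin k) (q : R[X]) :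
    ddL f g j (f * q) = 0 := by
  rw [ddL_apply, dd_update]
  refine Matrix.det_eq_zero_of_column_eq_zero j (fun a => ?_)
  rw [Matrix.updateCol_self, mul_comm, Polynomial.mul_self_modByMonic hf, coeff_zero]

/-- The value of `dd` on the monomial basis. -/
lemma dd_basis (f : R[X]) (hf : f.Monic) (hd : f.natDegree = k) :
    dd f (fun j : Fin k => (X : R[X]) ^ (j : ℕ)) = 1 := by
  nontriviality R
  rw [dd]
  have : (Matrix.of fun a j : Fin k => ((X : R[X]) ^ (j : ℕ) %ₘ f).coeff (a : ℕ)) = 1 := by
    ext a j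
    rw [Matrix.of_apply, (Polynomial.modByMonic_eq_self_iff hf).2, Polynomial.coeff_X_pow,
      Matrix.one_apply]
    · simp only [Fin.ext_iff]
    · rw [degree_X_pow, Polynomial.degree_eq_natDegree hf.ne_zero, hd]
      exact_mod_cast j.2
  rw [this, Matrix.det_one]

/-- Multiplicativity. -/
lemma dd_mul (f : R[X]) (hf : f.Monic) (hd : f.natDegree = k) (h : R[X]) (g : Fin k → R[X]) :
    dd f (fun j => h * g j) = dd f (fun j : Fin k => h * X ^ (j : ℕ)) * dd f g := by
  nontriviality R
  rw [dd, dd, dd, ← Matrix.det_mul]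
  congr 1
  ext a j
  rw [Matrix.mul_apply]
  simp only [Matrix.of_apply]
  have h1 : (h * g j) %ₘ f = (h * (g j %ₘ f)) %ₘ f := by
    conv_lhs => rw [← Polynomial.modByMonic_add_div (g j) f]
    rw [mul_add, Polynomial.add_modByMonic]
    have : h * (f * (g j /ₘ f)) = (h * (g j /ₘ f)) * f := by ring
    rw [this, Polynomial.mul_self_modByMonic hf, add_zero]
  have h2 : g j %ₘ f = ∑ i : Fin k, C ((g j %ₘ f).coeff (i : ℕ)) * X ^ (i : ℕ) := by
    have h3 : (g j %ₘ f).natDegree < k ∨ k = 0 := by
      by_cases hk : k = 0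
      · exact Or.inr hk
      · left
        have := Polynomial.degree_modByMonic_lt (g j) hf
        have h4 := Polynomial.natDegree_modByMonic_lt (g j) hf (by
          intro h5; rw [h5, natDegree_one] at hd; exact hk hd.symm)
        omega
    rcases h3 with h3 | h3
    · conv_lhs => rw [Polynomial.as_sum_range_C_mul_X_pow' (g j %ₘ f) h3]
      rw [Finset.sum_range]
    · subst h3
      have : f = 1 := by
        exact (Polynomial.Monic.natDegree_eq_zero hf).1 hd
      rw [this, Polynomial.modByMonic_one]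
      simp
  rw [h1]
  conv_lhs => rw [h2]
  rw [Finset.mul_sum]
  have h5 : (∑ i : Fin k, h * (C ((g j %ₘ f).coeff (i : ℕ)) * X ^ (i : ℕ))) %ₘ f
      = ∑ i : Fin k, C ((g j %ₘ f).coeff (i : ℕ)) * ((h * X ^ (i : ℕ)) %ₘ f) := by
    have h6 : ∀ i : Fin k, C ((g j %ₘ f).coeff (i : ℕ)) * ((h * X ^ (i : ℕ)) %ₘ f)
        = (h * (C ((g j %ₘ f).coeff (i : ℕ)) * X ^ (i : ℕ))) %ₘ f := by
      intro i
      rw [← Polynomial.smul_eq_C_mul, ← Polynomial.smul_modByMonic, Polynomial.smul_eq_C_mul]
      congr 1; ring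
    rw [Finset.sum_congr rfl (fun i _ => h6 i)]
    exact map_sum (Polynomial.modByMonicHom f) _ _
  rw [h5, Polynomial.finsetSum_coeff]
  refine Finset.sum_congr rfl (fun i _ => ?_)
  rw [Polynomial.coeff_C_mul, mul_comm]

/-- Multiplication by a power of `X` changes `dd` by a unit, if `f(0)` is a unit. -/
lemma isUnit_ddX (f : R[X]) (hf : f.Monic) (hd : f.natDegree = k) (h0 : IsUnit (f.coeff 0))
    (m : ℕ) : IsUnit (dd f (fun j : Fin k => (X : R[X]) ^ m * X ^ (j : ℕ))) := by
  nontriviality R
  obtain ⟨c, hc⟩ := h0.exists_right_inv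
  -- an inverse of `X` modulo `f`
  obtain ⟨q, hq⟩ : ∃ q : R[X], f = X * q + C (f.coeff 0) := by
    refine ⟨f.divX, ?_⟩
    rw [Polynomial.X_mul_divX_add]
  set y : R[X] := -(C c * q) with hy
  have hxy : X * y = 1 - C c * f := by
    have : C c * (C (f.coeff 0)) = (1 : R[X]) := by rw [← C_mul, mul_comm, hc, C_1]
    rw [hy]
    linear_combination (C c) * hq + this
  have h1 : ∃ w : R[X], X ^ m * y ^ m = 1 + f * w := by
    induction m with
    | zero => exact ⟨0, by simp⟩
    | succ m ih =>
      obtain ⟨w, hw⟩ := ih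
      refine ⟨w * (X * y) - C c, ?_⟩
      have : X ^ (m + 1) * y ^ (m + 1) = (X ^ m * y ^ m) * (X * y) := by ring
      rw [this, hw]
      linear_combination hxy
  obtain ⟨w, hw⟩ := h1
  have h2 := dd_mul f hf hd (X ^ m) (fun j : Fin k => y ^ m * X ^ (j : ℕ))
  have h3 : dd f (fun j : Fin k => X ^ m * (y ^ m * X ^ (j : ℕ))) = 1 := by
    rw [← dd_basis f hf hd, dd, dd]
    congr 1
    ext a j
    simp only [Matrix.of_apply]
    have : X ^ m * (y ^ m * X ^ (j : ℕ)) = X ^ (j : ℕ) + (w * X ^ (j : ℕ)) * f := by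
      linear_combination X ^ (j : ℕ) * hw
    rw [this, Polynomial.add_modByMonic, Polynomial.mul_self_modByMonic hf, add_zero]
  rw [h3] at h2
  exact IsUnit.of_mul_eq_one _ h2.symm

/-- Cancel a power of `X`. -/
lemma dd_X_pow_mul_eq_zero (f : R[X]) (hf : f.Monic) (hd : f.natDegree = k)
    (h0 : IsUnit (f.coeff 0)) (m : ℕ) (g : Fin k → R[X])
    (h : dd f (fun j => X ^ m * g j) = 0) : dd f g = 0 := by
  rw [dd_mul f hf hd] at h
  exact (isUnit_ddX f hf hd h0 m).mul_right_eq_zero.1 h

end

end Pool.Agent.Helper75.CYC
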